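import Pool.Agent.helper90.IV.Spec

set_option autoImplicit false

open scoped BigOperators

namespace Pool.Agent.helper94.IV

open Pool.Agent.helper23.TH Pool.Agent.KS Pool.Agent.IV

noncomputable section

open Classical

/-- counting pairs -/
theorem chy_card {X Z : Type} [Fintype X] [Fintype Z] (A : Finset X) (F : X → Finset Z)
    (E : Finset (X × Z)) (hE : ∀ p, p ∈ E ↔ p.1 ∈ A ∧ p.2 ∈ F p.1) :
    E.card = ∑ x ∈ A, (F x).card := by
  rw [← Finset.card_sigma]
  apply Finset.card_bij (fun p _ => (⟨p.1, p.2⟩ : (_ : X) × Z))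
  · intro p hp
    rw [Finset.mem_sigma]
    exact (hE p).1 hp
  · intro p _ q _ h
    have h1 : p.1 = q.1 := congrArg Sigma.fst h
    have h2 : p.2 = q.2 := by
      have := congrArg (fun z : (_ : X) × Z => z.2) h
      exact this
    exact Prod.ext h1 h2
  · intro q hq
    rw [Finset.mem_sigma] at hq
    exact ⟨(q.1, q.2), (hE _).2 hq, rfl⟩

/-- functions with two equal values -/
theorem chy_pair {R V : Type} [Fintype R] [DecidableEq R] (S : R → Finset V) (r r' : R) (hr : r ≠ r') :
    (S r).card * ((Fintype.piFinset S).filter fun y => y r = y r').card ≤ ∏ q, (S q).card := by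
  have h1 : ((Fintype.piFinset S).filter fun y => y r = y r').card
      ≤ ∏ q ∈ Finset.univ.erase r, (S q).card := by
    rw [← Finset.card_pi]
    apply Finset.card_le_card_of_injOn (fun y => fun q _ => y q)
    · intro y hy
      have hy' := Finset.mem_filter.1 (Finset.mem_coe.1 hy)
      rw [Finset.mem_coe, Finset.mem_pi]
      intro q _
      exact Fintype.mem_piFinset.1 hy'.1 q
    · intro y hy z hz h
      have hy' := Finset.mem_filter.1 (Finset.mem_coe.1 hy)
      have hz' := Finset.mem_filter.1 (Finset.mem_coe.1 hz)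
      have key : ∀ q, q ≠ r → y q = z q := by
        intro q hq
        have h2 := congrFun (congrFun h q) (Finset.mem_erase.2 ⟨hq, Finset.mem_univ q⟩)
        exact h2
      funext q
      by_cases hq : q = r
      · subst hq
        rw [hy'.2, hz'.2]
        exact key r' (Ne.symm hr)
      · exact key q hq
  calc (S r).card * ((Fintype.piFinset S).filter fun y => y r = y r').card
      ≤ (S r).card * ∏ q ∈ Finset.univ.erase r, (S q).card := Nat.mul_le_mul_left _ h1
    _ = ∏ q, (S q).card := Finset.mul_prod_erase Finset.univ (fun q => (S q).card) (Finset.mem_univ r)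

/-- weights -/
def cw {h : ℕ} {pj : Fin (h + 1) → ℕ} (D m : ℕ) : CI h pj → ℕ
  | .inl _ => D
  | .inr _ => m

theorem chy_prod (s h : ℕ) (pj : Fin (h + 1) → ℕ) (D m : ℕ) :
    ∏ r : (cat s h pj).R, cw D m r.1 = D ^ ((h + 1) * (s - 2)) * m ^ nB s h pj := by
  rw [Fintype.prod_sigma]
  have h1 : ∀ i : CI h pj, ∏ _k : Fin ((cat s h pj).ro i), cw D m i = cw D m i ^ (cat s h pj).ro i := by
    intro i
    rw [Finset.prod_const, Finset.card_univ, Fintype.card_fin]
  rw [Finset.prod_congr rfl fun i _ => h1 i]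
  rw [Fintype.prod_sum_type, Fintype.prod_sum_type]
  have e1 : ∏ i : Fin (h + 1), cw D m (Sum.inl i : CI h pj) ^ (cat s h pj).ro (Sum.inl i)
      = D ^ ((h + 1) * (s - 2)) := by
    have : ∀ i : Fin (h + 1), cw D m (Sum.inl i : CI h pj) ^ (cat s h pj).ro (Sum.inl i)
        = D ^ (s - 2) := fun i => rfl
    rw [Finset.prod_congr rfl fun i _ => this i, Finset.prod_const, Finset.card_univ,
      Fintype.card_fin, ← pow_mul, mul_comm]
  have e2 : ∏ i : Fin h, cw D m (Sum.inr (Sum.inl i) : CI h pj) ^ (cat s h pj).ro (Sum.inr (Sum.inl i))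
      = m ^ (h * (s - 2)) := by
    have : ∀ i : Fin h, cw D m (Sum.inr (Sum.inl i) : CI h pj) ^ (cat s h pj).ro (Sum.inr (Sum.inl i))
        = m ^ (s - 2) := fun i => rfl
    rw [Finset.prod_congr rfl fun i _ => this i, Finset.prod_const, Finset.card_univ,
      Fintype.card_fin, ← pow_mul, mul_comm]
  have e3 : ∏ i : (Σ j : Fin (h + 1), Fin (pj j)),
      cw D m (Sum.inr (Sum.inr i) : CI h pj) ^ (cat s h pj).ro (Sum.inr (Sum.inr i))
      = m ^ ((∑ j, pj j) * (s - 1)) := by
    have : ∀ i : (Σ j : Fin (h + 1), Fin (pj j)),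
        cw D m (Sum.inr (Sum.inr i) : CI h pj) ^ (cat s h pj).ro (Sum.inr (Sum.inr i))
        = m ^ (s - 1) := fun i => rfl
    rw [Finset.prod_congr rfl fun i _ => this i, Finset.prod_const, Finset.card_univ,
      Fintype.card_sigma, ← pow_mul, mul_comm (s - 1)]
    simp only [Fintype.card_fin]
  rw [e1, e2, e3, nB, pow_add]

/-- possible values of the slots -/
def cS {V : Type} (B : V → V → Prop) {h : ℕ} {pj : Fin (h + 1) → ℕ} (M Y : Finset V)
    (xh : Fin (h + 1) → V) : CI h pj → Finset V
  | .inl i => Y.filter (B (xh i))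
  | .inr _ => M

theorem cS_card {V : Type} (B : V → V → Prop) {h : ℕ} {pj : Fin (h + 1) → ℕ} (M Y : Finset V)
    (D : ℕ) (hD : ∀ x ∈ M, degY B Y x = D) (xh : Fin (h + 1) → V) (hx : ∀ i, xh i ∈ M)
    (u : CI h pj) : (cS B M Y xh u).card = cw D M.card u := by
  rcases u with i | u
  · exact hD (xh i) (hx i)
  · rfl

/-- all skeletons -/
def cAll {V : Type} [Fintype V] (B : V → V → Prop) (s h : ℕ) (pj : Fin (h + 1) → ℕ)
    (M Y : Finset V) : Finset ((Fin (h + 1) → V) × ((cat s h pj).R → V)) :=
  Finset.univ.filter fun p => (∀ i, p.1 i ∈ M) ∧ ∀ r : (cat s h pj).R, p.2 r ∈ cS B M Y p.1 r.1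

theorem SKs_sub {V : Type} [Fintype V] (A B : V → V → Prop) (s h : ℕ) (pj : Fin (h + 1) → ℕ)
    (Ch : ℕ) (M Y : Finset V) (p : (Fin (h + 1) → V) × ((cat s h pj).R → V)) :
    p ∈ SKs A B s h pj Ch M Y ↔ p ∈ cAll B s h pj M Y ∧ ∀ u, Ch ≤ cnc A s p.1 p.2 u := by
  simp only [SKs, cAll, Finset.mem_filter, Finset.mem_univ, true_and]
  constructor
  · rintro ⟨h1, h2, h3, h4⟩
    refine ⟨⟨h1, ?_⟩, h4⟩
    rintro ⟨i | u, k⟩
    · show p.2 ⟨Sum.inl i, k⟩ ∈ Y.filter (B (p.1 i))
      rw [Finset.mem_filter]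
      exact h2 i k
    · exact h3 u k
  · rintro ⟨⟨h1, h2⟩, h4⟩
    refine ⟨h1, ?_, ?_, h4⟩
    · intro i k
      have h5 := h2 ⟨Sum.inl i, k⟩
      have h6 : p.2 ⟨Sum.inl i, k⟩ ∈ Y.filter (B (p.1 i)) := h5
      rw [Finset.mem_filter] at h6
      exact h6
    · intro u k
      exact h2 ⟨Sum.inr u, k⟩

theorem cAll_card {V : Type} [Fintype V] (B : V → V → Prop) (s h : ℕ) (pj : Fin (h + 1) → ℕ)
    (M Y : Finset V) (D : ℕ) (hD : ∀ x ∈ M, degY B Y x = D) :
    (cAll B s h pj M Y).card = M.card ^ (h + 1) * (D ^ ((h + 1) * (s - 2)) * M.card ^ nB s h pj) := by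
  rw [chy_card (Fintype.piFinset fun _ : Fin (h + 1) => M)
    (fun xh => Fintype.piFinset fun r : (cat s h pj).R => cS B M Y xh r.1)]
  · have h1 : ∀ xh ∈ Fintype.piFinset (fun _ : Fin (h + 1) => M),
        (Fintype.piFinset fun r : (cat s h pj).R => cS B M Y xh r.1).card
          = D ^ ((h + 1) * (s - 2)) * M.card ^ nB s h pj := by
      intro xh hx
      rw [Fintype.mem_piFinset] at hx
      rw [Fintype.card_piFinset, ← chy_prod s h pj D M.card]
      apply Finset.prod_congr rfl
      intro r _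
      exact cS_card B M Y D hD xh hx r.1
    rw [Finset.sum_congr rfl h1, Finset.sum_const, Fintype.card_piFinset, Finset.prod_const,
      Finset.card_univ, Fintype.card_fin, smul_eq_mul]
  · intro p
    simp only [cAll, Finset.mem_filter, Finset.mem_univ, true_and, Fintype.mem_piFinset]

theorem cAll_pair {V : Type} [Fintype V] (B : V → V → Prop) (s h : ℕ) (pj : Fin (h + 1) → ℕ)
    (M Y : Finset V) (D : ℕ) (hD : ∀ x ∈ M, degY B Y x = D) (r r' : (cat s h pj).R) (hr : r ≠ r') :
    cw D M.card r.1 * ((cAll B s h pj M Y).filter fun p => p.2 r = p.2 r').card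
      ≤ (cAll B s h pj M Y).card := by
  rw [cAll_card B s h pj M Y D hD]
  rw [chy_card (Fintype.piFinset fun _ : Fin (h + 1) => M)
    (fun xh => (Fintype.piFinset fun r : (cat s h pj).R => cS B M Y xh r.1).filter fun y => y r = y r')]
  · rw [Finset.mul_sum]
    have h1 : ∀ xh ∈ Fintype.piFinset (fun _ : Fin (h + 1) => M),
        cw D M.card r.1 * ((Fintype.piFinset fun r : (cat s h pj).R => cS B M Y xh r.1).filter
          fun y => y r = y r').card ≤ D ^ ((h + 1) * (s - 2)) * M.card ^ nB s h pj := by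
      intro xh hx
      rw [Fintype.mem_piFinset] at hx
      have h2 := chy_pair (fun r : (cat s h pj).R => cS B M Y xh r.1) r r' hr
      rw [← chy_prod s h pj D M.card]
      rw [← cS_card B M Y D hD xh hx r.1]
      refine h2.trans (le_of_eq ?_)
      apply Finset.prod_congr rfl
      intro q _
      exact cS_card B M Y D hD xh hx q.1
    refine (Finset.sum_le_sum h1).trans (le_of_eq ?_)
    rw [Finset.sum_const, Fintype.card_piFinset, Finset.prod_const,
      Finset.card_univ, Fintype.card_fin, smul_eq_mul]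
  · intro p
    simp only [cAll, Finset.mem_filter, Finset.mem_univ, true_and, Fintype.mem_piFinset, and_assoc]

/-- few values of the hub `i` -/
theorem cAll_few {V : Type} [Fintype V] (B : V → V → Prop) (s h : ℕ) (pj : Fin (h + 1) → ℕ)
    (M Y : Finset V) (D : ℕ) (hM : M.Nonempty) (hD : ∀ x ∈ M, degY B Y x = D) (i : Fin (h + 1))
    (L : ℝ) :
    ((cAll B s h pj M Y).filter fun p => ((Gh B M p.2 i).card : ℝ) < L).card * (M.card * D ^ (s - 2))
      ≤ ⌊L⌋₊ * Y.card ^ (s - 2) * (cAll B s h pj M Y).card := by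
  obtain ⟨m0, hm0⟩ := hM
  set E := (cAll B s h pj M Y).filter fun p => ((Gh B M p.2 i).card : ℝ) < L with hE
  let f : (Fin (h + 1) → V) × ((cat s h pj).R → V) → (Fin (h + 1) → V) × ((cat s h pj).R → V) :=
    fun p => (Function.update p.1 i m0, p.2)
  have h1 : E.card ≤ ⌊L⌋₊ * (E.image f).card := by
    apply Finset.card_le_mul_card_image
    intro b hb
    rw [Finset.mem_image] at hb
    obtain ⟨p0, hp0, rfl⟩ := hb
    rw [hE, Finset.mem_filter] at hp0
    have h2 : (E.filter fun p => f p = f p0).card ≤ (Gh B M p0.2 i).card := by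
      apply Finset.card_le_card_of_injOn (fun p => p.1 i)
      · intro p hp
        have hp1 := Finset.mem_filter.1 (Finset.mem_coe.1 hp)
        have hp2 : p ∈ cAll B s h pj M Y := (Finset.mem_filter.1 hp1.1).1
        have e2' := congrArg Prod.snd hp1.2
        have e2 : p.2 = p0.2 := e2'
        simp only [cAll, Finset.mem_filter, Finset.mem_univ, true_and] at hp2
        rw [Finset.mem_coe, Gh, Finset.mem_filter]
        refine ⟨hp2.1 i, ?_⟩
        intro k
        have h5 : p.2 ⟨Sum.inl i, k⟩ ∈ Y.filter (B (p.1 i)) := hp2.2 ⟨Sum.inl i, k⟩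
        rw [Finset.mem_filter] at h5
        rw [← e2]
        exact h5.2
      · intro p hp q hq hpq
        have hp1 := Finset.mem_filter.1 (Finset.mem_coe.1 hp)
        have hq1 := Finset.mem_filter.1 (Finset.mem_coe.1 hq)
        have e : f p = f q := hp1.2.trans hq1.2.symm
        have e1' := congrArg Prod.fst e
        have e2' := congrArg Prod.snd e
        have e1 : Function.update p.1 i m0 = Function.update q.1 i m0 := e1'
        have e2 : p.2 = q.2 := e2'
        refine Prod.ext ?_ e2
        funext j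
        by_cases hj : j = i
        · subst hj
          exact hpq
        · have := congrFun e1 j
          rwa [Function.update_of_ne hj, Function.update_of_ne hj] at this
    exact h2.trans (Nat.le_floor hp0.2.le)
  -- the image
  let A' : Finset (Fin (h + 1) → V) := Fintype.piFinset fun j => if j = i then {m0} else M
  let T' : (Fin (h + 1) → V) → CI h pj → Finset V := fun xh u =>
    if u = Sum.inl i then Y else cS B M Y xh u
  let E' : Finset ((Fin (h + 1) → V) × ((cat s h pj).R → V)) :=
    Finset.univ.filter fun p => p.1 ∈ A' ∧ p.2 ∈ Fintype.piFinset fun r : (cat s h pj).R => T' p.1 r.1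
  have h3 : E.image f ⊆ E' := by
    intro b hb
    rw [Finset.mem_image] at hb
    obtain ⟨p, hp, rfl⟩ := hb
    rw [hE, Finset.mem_filter] at hp
    have hp2 := hp.1
    simp only [cAll, Finset.mem_filter, Finset.mem_univ, true_and] at hp2
    simp only [E', Finset.mem_filter, Finset.mem_univ, true_and, A', Fintype.mem_piFinset, f]
    constructor
    · intro j
      by_cases hj : j = i
      · rw [if_pos hj, hj, Function.update_self, Finset.mem_singleton]
      · rw [if_neg hj, Function.update_of_ne hj]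
        exact hp2.1 j
    · intro r
      by_cases hr : r.1 = Sum.inl i
      · simp only [T', if_pos hr]
        have h5 := hp2.2 r
        rw [hr] at h5
        have h6 : p.2 r ∈ Y.filter (B (p.1 i)) := h5
        exact (Finset.mem_filter.1 h6).1
      · simp only [T', if_neg hr]
        have h5 := hp2.2 r
        obtain ⟨u | u, k⟩ := r
        · have hu : u ≠ i := fun h => hr (by rw [h])
          have h6 : p.2 ⟨Sum.inl u, k⟩ ∈ Y.filter (B (p.1 u)) := h5
          show p.2 ⟨Sum.inl u, k⟩ ∈ Y.filter (B (Function.update p.1 i m0 u))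
          rw [Function.update_of_ne hu]
          exact h6
        · exact h5
  -- its cardinality
  have h4 : (M.card * D ^ (s - 2)) * E'.card = Y.card ^ (s - 2) * (cAll B s h pj M Y).card := by
    have hE' : E'.card = ∑ xh ∈ A', (Fintype.piFinset fun r : (cat s h pj).R => T' xh r.1).card := by
      apply chy_card A' (fun xh => Fintype.piFinset fun r : (cat s h pj).R => T' xh r.1)
      intro p
      simp only [E', Finset.mem_filter, Finset.mem_univ, true_and]
    have hA' : M.card * A'.card = M.card ^ (h + 1) := by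
      rw [Fintype.card_piFinset]
      have e1 : ∏ j, (if j = i then ({m0} : Finset V) else M).card
          = ∏ j ∈ Finset.univ.erase i, M.card := by
        rw [← Finset.mul_prod_erase Finset.univ _ (Finset.mem_univ i), if_pos rfl,
          Finset.card_singleton, one_mul]
        apply Finset.prod_congr rfl
        intro j hj
        rw [if_neg (Finset.ne_of_mem_erase hj)]
      rw [e1, Finset.mul_prod_erase Finset.univ (fun _ => M.card) (Finset.mem_univ i),
        Finset.prod_const, Finset.card_univ, Fintype.card_fin]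
    have hT' : ∀ xh ∈ A', D ^ (s - 2) * (Fintype.piFinset fun r : (cat s h pj).R => T' xh r.1).card
        = Y.card ^ (s - 2) * (D ^ ((h + 1) * (s - 2)) * M.card ^ nB s h pj) := by
      intro xh hx
      simp only [A', Fintype.mem_piFinset] at hx
      rw [Fintype.card_piFinset, ← chy_prod s h pj D M.card]
      have c1 : ∀ u : CI h pj, (T' xh u).card = if u = Sum.inl i then Y.card else cw D M.card u := by
        intro u
        by_cases hu : u = Sum.inl i
        · simp only [T', if_pos hu]
        · simp only [T', if_neg hu]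
          rcases u with j | u
          · have hj : j ≠ i := fun h => hu (by rw [h])
            have hxj := hx j
            rw [if_neg hj] at hxj
            exact hD (xh j) hxj
          · rfl
      rw [Fintype.prod_sigma, Fintype.prod_sigma]
      have c2 : ∀ u : CI h pj, ∏ _k : Fin ((cat s h pj).ro u), (T' xh u).card
          = (if u = Sum.inl i then Y.card else cw D M.card u) ^ (cat s h pj).ro u := by
        intro u
        rw [Finset.prod_const, Finset.card_univ, Fintype.card_fin, c1 u]
      have c3 : ∀ u : CI h pj, ∏ _k : Fin ((cat s h pj).ro u), cw D M.card u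
          = (cw D M.card u) ^ (cat s h pj).ro u := by
        intro u
        rw [Finset.prod_const, Finset.card_univ, Fintype.card_fin]
      rw [Finset.prod_congr rfl fun u _ => c2 u, Finset.prod_congr rfl fun u _ => c3 u]
      rw [← Finset.mul_prod_erase Finset.univ _ (Finset.mem_univ (Sum.inl i : CI h pj)),
        ← Finset.mul_prod_erase Finset.univ (fun u : CI h pj => cw D M.card u ^ (cat s h pj).ro u)
          (Finset.mem_univ (Sum.inl i : CI h pj)), if_pos rfl]
      have c4 : ∏ u ∈ Finset.univ.erase (Sum.inl i : CI h pj),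
          (if u = Sum.inl i then Y.card else cw D M.card u) ^ (cat s h pj).ro u
          = ∏ u ∈ Finset.univ.erase (Sum.inl i : CI h pj), cw D M.card u ^ (cat s h pj).ro u := by
        apply Finset.prod_congr rfl
        intro u hu
        rw [if_neg (Finset.ne_of_mem_erase hu)]
      rw [c4]
      have c5 : (cat s h pj).ro (Sum.inl i) = s - 2 := rfl
      have c6 : cw D M.card (Sum.inl i : CI h pj) = D := rfl
      rw [c5, c6]
      ring
    rw [hE', cAll_card B s h pj M Y D hD, Finset.mul_sum]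
    have hT2 : ∀ xh ∈ A', M.card * D ^ (s - 2) * (Fintype.piFinset fun r : (cat s h pj).R => T' xh r.1).card
        = M.card * (Y.card ^ (s - 2) * (D ^ ((h + 1) * (s - 2)) * M.card ^ nB s h pj)) := by
      intro xh hx
      rw [mul_assoc, hT' xh hx]
    rw [Finset.sum_congr rfl hT2, Finset.sum_const, smul_eq_mul]
    calc A'.card * (M.card * (Y.card ^ (s - 2) * (D ^ ((h + 1) * (s - 2)) * M.card ^ nB s h pj)))
        = (M.card * A'.card) * (Y.card ^ (s - 2) * (D ^ ((h + 1) * (s - 2)) * M.card ^ nB s h pj)) := by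
          ring
      _ = Y.card ^ (s - 2) * (M.card ^ (h + 1) * (D ^ ((h + 1) * (s - 2)) * M.card ^ nB s h pj)) := by
          rw [hA']; ring
  calc E.card * (M.card * D ^ (s - 2))
      ≤ (⌊L⌋₊ * E'.card) * (M.card * D ^ (s - 2)) :=
        Nat.mul_le_mul_right _ (h1.trans (Nat.mul_le_mul_left _ (Finset.card_le_card h3)))
    _ = ⌊L⌋₊ * ((M.card * D ^ (s - 2)) * E'.card) := by ring
    _ = ⌊L⌋₊ * Y.card ^ (s - 2) * (cAll B s h pj M Y).card := by rw [h4]; ring

theorem mem_Gh {V : Type} (B : V → V → Prop) {s h : ℕ} {pj : Fin (h + 1) → ℕ} (M : Finset V)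
    (y : (cat s h pj).R → V) (i : Fin (h + 1)) (x : V) :
    x ∈ Gh B M y i ↔ x ∈ M ∧ ∀ k : Fin (s - 2), B x (y ⟨.inl i, k⟩) := by
  rw [Gh, Finset.mem_filter]

theorem mem_cAll {V : Type} [Fintype V] (B : V → V → Prop) (s h : ℕ) (pj : Fin (h + 1) → ℕ)
    (M Y : Finset V) (p : (Fin (h + 1) → V) × ((cat s h pj).R → V)) :
    p ∈ cAll B s h pj M Y ↔ (∀ i, p.1 i ∈ M) ∧ ∀ r : (cat s h pj).R, p.2 r ∈ cS B M Y p.1 r.1 := by
  rw [cAll, Finset.mem_filter]
  exact ⟨fun h => h.2, fun h => ⟨Finset.mem_univ _, h⟩⟩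

/-- the fibre over `y` -/
theorem chy_fib {V : Type} [Fintype V] (A B : V → V → Prop) (s h : ℕ) (pj : Fin (h + 1) → ℕ)
    (Ch : ℕ) (M Y : Finset V) (c : ℝ) (hc : 0 < c) (P : ((cat s h pj).R → V) → Prop)
    (hP : ∀ y, P y → ((GX A B Ch M y).card : ℝ) < c / 2 * ∏ i, ((Gh B M y i).card : ℝ))
    (y : (cat s h pj).R → V) :
    ((((SKs A B s h pj Ch M Y).filter fun p => P p.2).filter fun p => p.2 = y).card : ℝ)
      ≤ c / 2 * ((cAll B s h pj M Y).filter fun p => p.2 = y).card := by
  rcases Finset.eq_empty_or_nonempty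
    (((SKs A B s h pj Ch M Y).filter fun p => P p.2).filter fun p => p.2 = y) with he | ⟨p0, hp0⟩
  · rw [he, Finset.card_empty, Nat.cast_zero]
    positivity
  · rw [Finset.mem_filter, Finset.mem_filter] at hp0
    obtain ⟨⟨hp1, hp2⟩, hp3⟩ := hp0
    have hpc := ((SKs_sub A B s h pj Ch M Y p0).1 hp1).1
    rw [mem_cAll] at hpc
    rw [hp3] at hp2 hpc
    have h1 : (((SKs A B s h pj Ch M Y).filter fun p => P p.2).filter fun p => p.2 = y).card
        ≤ (GX A B Ch M y).card := by
      apply Finset.card_le_card_of_injOn Prod.fst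
      · intro p hp
        have hp' := Finset.mem_filter.1 (Finset.mem_coe.1 hp)
        have hp'' := (Finset.mem_filter.1 hp'.1).1
        obtain ⟨ha, hb⟩ := (SKs_sub A B s h pj Ch M Y p).1 hp''
        rw [mem_cAll] at ha
        rw [hp'.2] at ha hb
        rw [Finset.mem_coe, GX, Finset.mem_filter]
        refine ⟨Finset.mem_univ _, ?_, hb⟩
        intro i
        rw [mem_Gh]
        refine ⟨ha.1 i, ?_⟩
        intro k
        have h5 : y ⟨Sum.inl i, k⟩ ∈ Y.filter (B (p.1 i)) := ha.2 ⟨Sum.inl i, k⟩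
        exact (Finset.mem_filter.1 h5).2
      · intro p hp q hq hpq
        have hp' := Finset.mem_filter.1 (Finset.mem_coe.1 hp)
        have hq' := Finset.mem_filter.1 (Finset.mem_coe.1 hq)
        exact Prod.ext hpq (hp'.2.trans hq'.2.symm)
    have h2 : ∏ i, (Gh B M y i).card ≤ ((cAll B s h pj M Y).filter fun p => p.2 = y).card := by
      rw [← Fintype.card_piFinset]
      apply Finset.card_le_card_of_injOn (fun xh => (xh, y))
      · intro xh hx
        rw [Finset.mem_coe, Fintype.mem_piFinset] at hx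
        rw [Finset.mem_coe, Finset.mem_filter, mem_cAll]
        refine ⟨⟨fun i => ((mem_Gh B M y i _).1 (hx i)).1, ?_⟩, rfl⟩
        rintro ⟨i | u, k⟩
        · show y ⟨Sum.inl i, k⟩ ∈ Y.filter (B (xh i))
          rw [Finset.mem_filter]
          have h5 : y ⟨Sum.inl i, k⟩ ∈ Y.filter (B (p0.1 i)) := hpc.2 ⟨Sum.inl i, k⟩
          exact ⟨(Finset.mem_filter.1 h5).1, ((mem_Gh B M y i _).1 (hx i)).2 k⟩
        · exact hpc.2 ⟨Sum.inr u, k⟩
      · intro a _ b _ hab
        exact congrArg Prod.fst hab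
    have h3 := hP y hp2
    have h2' : ∏ i, ((Gh B M y i).card : ℝ) ≤ ((cAll B s h pj M Y).filter fun p => p.2 = y).card := by
      exact_mod_cast h2
    have h1' : ((((SKs A B s h pj Ch M Y).filter fun p => P p.2).filter fun p => p.2 = y).card : ℝ)
        ≤ (GX A B Ch M y).card := by exact_mod_cast h1
    calc ((((SKs A B s h pj Ch M Y).filter fun p => P p.2).filter fun p => p.2 = y).card : ℝ)
        ≤ (GX A B Ch M y).card := h1'
      _ ≤ c / 2 * ∏ i, ((Gh B M y i).card : ℝ) := h3.le
      _ ≤ c / 2 * ((cAll B s h pj M Y).filter fun p => p.2 = y).card :=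
          mul_le_mul_of_nonneg_left h2' (by positivity)

theorem CHY : CHY_stmt := by
  intro s h pj c L hs hc
  set K : ℝ := ((h : ℝ) + 1) * (⌊L⌋₊ : ℝ) + (Fintype.card (cat s h pj).R : ℝ) ^ 2 + 1 with hK
  have hKpos : 0 < K := by positivity
  have hL'pos : 0 < 4 / c * K := by positivity
  refine ⟨4 / c * K, hL'pos, ?_⟩
  intro V _ A B Ch M Y D hM hD hLY hLD hSK
  by_contra hcon
  push Not at hcon
  set N : ℕ := (cAll B s h pj M Y).card with hN
  have hmpos : (0 : ℝ) < M.card := by exact_mod_cast hM.card_pos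
  have hDpos : (0 : ℝ) < D := lt_of_lt_of_le hL'pos hLD
  have hNval : (N : ℝ) = (M.card : ℝ) ^ (h + 1 + nB s h pj) * (D : ℝ) ^ ((h + 1) * (s - 2)) := by
    rw [hN, cAll_card B s h pj M Y D hD]
    push_cast
    ring
  have hNpos : (0 : ℝ) < N := by rw [hNval]; positivity
  have hDY : D ≤ Y.card := by
    obtain ⟨x, hx⟩ := hM
    rw [← hD x hx]
    exact Finset.card_filter_le _ _
  have hYpos : (0 : ℝ) < Y.card := lt_of_lt_of_le hDpos (by exact_mod_cast hDY)
  have hYs : (0 : ℝ) < (Y.card : ℝ) ^ (s - 2) := by positivity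
  have hLm : 4 / c * K ≤ M.card := by
    have h1 : (D : ℝ) ^ (s - 2) ≤ (Y.card : ℝ) ^ (s - 2) :=
      pow_le_pow_left₀ hDpos.le (by exact_mod_cast hDY) _
    have h2 : 4 / c * K * (Y.card : ℝ) ^ (s - 2) ≤ M.card * (Y.card : ℝ) ^ (s - 2) :=
      hLY.trans (mul_le_mul_of_nonneg_left h1 hmpos.le)
    exact le_of_mul_le_mul_right h2 hYs
  have hw : ∀ u : CI h pj, 4 / c * K ≤ (cw D M.card u : ℝ) := by
    intro u
    rcases u with i | u
    · exact hLD
    · exact hLm
  -- pairs
  have hpair : ∀ r r' : (cat s h pj).R, r ≠ r' →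
      (4 / c * K) * (((cAll B s h pj M Y).filter fun p => p.2 r = p.2 r').card : ℝ) ≤ N := by
    intro r r' hr
    have h1 := cAll_pair B s h pj M Y D hD r r' hr
    have h2 : ((cw D M.card r.1 : ℕ) : ℝ)
        * (((cAll B s h pj M Y).filter fun p => p.2 r = p.2 r').card : ℝ) ≤ N := by
      exact_mod_cast h1
    exact (mul_le_mul_of_nonneg_right (hw r.1) (Nat.cast_nonneg _)).trans h2
  have hfew : ∀ i : Fin (h + 1),
      (4 / c * K) * (((cAll B s h pj M Y).filter fun p => ((Gh B M p.2 i).card : ℝ) < L).card : ℝ)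
        ≤ (⌊L⌋₊ : ℝ) * N := by
    intro i
    have h1 := cAll_few B s h pj M Y D hM hD i L
    have h2 : (((cAll B s h pj M Y).filter fun p => ((Gh B M p.2 i).card : ℝ) < L).card : ℝ)
        * (M.card * (D : ℝ) ^ (s - 2)) ≤ (⌊L⌋₊ : ℝ) * (Y.card : ℝ) ^ (s - 2) * N := by
      exact_mod_cast h1
    have h3 : (((cAll B s h pj M Y).filter fun p => ((Gh B M p.2 i).card : ℝ) < L).card : ℝ)
        * (4 / c * K * (Y.card : ℝ) ^ (s - 2)) ≤ (⌊L⌋₊ : ℝ) * (Y.card : ℝ) ^ (s - 2) * N :=
      (mul_le_mul_of_nonneg_left hLY (Nat.cast_nonneg _)).trans h2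
    have h4 : ((4 / c * K)
        * (((cAll B s h pj M Y).filter fun p => ((Gh B M p.2 i).card : ℝ) < L).card : ℝ))
        * (Y.card : ℝ) ^ (s - 2) ≤ ((⌊L⌋₊ : ℝ) * N) * (Y.card : ℝ) ^ (s - 2) := by
      linarith
    exact le_of_mul_le_mul_right h4 hYs
  -- good ones
  let P : ((cat s h pj).R → V) → Prop := fun y =>
    Function.Injective y ∧ ∀ i, L ≤ ((Gh B M y i).card : ℝ)
  have hP : ∀ y, P y → ((GX A B Ch M y).card : ℝ) < c / 2 * ∏ i, ((Gh B M y i).card : ℝ) :=
    fun y hy => hcon y hy.1 hy.2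
  have hgood : (((SKs A B s h pj Ch M Y).filter fun p => P p.2).card : ℝ) ≤ c / 2 * N := by
    have e1 := Finset.card_eq_sum_card_fiberwise
      (s := (SKs A B s h pj Ch M Y).filter fun p => P p.2) (t := Finset.univ) (f := Prod.snd)
      (fun _ _ => Finset.mem_coe.2 (Finset.mem_univ _))
    have e2 := Finset.card_eq_sum_card_fiberwise
      (s := cAll B s h pj M Y) (t := Finset.univ) (f := Prod.snd)
      (fun _ _ => Finset.mem_coe.2 (Finset.mem_univ _))
    rw [e1, hN, e2]
    push_cast
    rw [Finset.mul_sum]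
    apply Finset.sum_le_sum
    intro y _
    refine le_trans (le_of_eq ?_) (le_trans (chy_fib A B s h pj Ch M Y c hc P hP y)
      (le_of_eq ?_))
    · exact congrArg (fun t : ℕ => (t : ℝ)) (congrArg Finset.card (Finset.ext fun p => by
        simp only [Finset.mem_filter]))
    · exact congrArg (fun t : ℕ => c / 2 * (t : ℝ)) (congrArg Finset.card (Finset.ext fun p => by
        simp only [Finset.mem_filter]))
  -- covering
  have hcov : SKs A B s h pj Ch M Y ⊆ ((SKs A B s h pj Ch M Y).filter fun p => P p.2) ∪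
      (((Finset.univ.filter fun q : (cat s h pj).R × (cat s h pj).R => q.1 ≠ q.2).biUnion
        fun q => (cAll B s h pj M Y).filter fun p => p.2 q.1 = p.2 q.2) ∪
      ((Finset.univ : Finset (Fin (h + 1))).biUnion
        fun i => (cAll B s h pj M Y).filter fun p => ((Gh B M p.2 i).card : ℝ) < L)) := by
    intro p hp
    have hpc := ((SKs_sub A B s h pj Ch M Y p).1 hp).1
    rw [Finset.mem_union, Finset.mem_union]
    by_cases hinj : Function.Injective p.2
    · by_cases hL : ∀ i, L ≤ ((Gh B M p.2 i).card : ℝ)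
      · left
        rw [Finset.mem_filter]
        exact ⟨hp, hinj, hL⟩
      · right
        right
        push Not at hL
        obtain ⟨i, hi⟩ := hL
        rw [Finset.mem_biUnion]
        exact ⟨i, Finset.mem_univ _, Finset.mem_filter.2 ⟨hpc, hi⟩⟩
    · right
      left
      rw [Function.Injective] at hinj
      push Not at hinj
      obtain ⟨r, r', h1, h2⟩ := hinj
      rw [Finset.mem_biUnion]
      exact ⟨(r, r'), Finset.mem_filter.2 ⟨Finset.mem_univ _, h2⟩, Finset.mem_filter.2 ⟨hpc, h1⟩⟩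
  have hc1 := (Finset.card_le_card hcov).trans (Finset.card_union_le _ _)
  have hc2 := hc1.trans (Nat.add_le_add_left (Finset.card_union_le _ _) _)
  have hb1 : (4 / c * K) * ((((Finset.univ.filter
      fun q : (cat s h pj).R × (cat s h pj).R => q.1 ≠ q.2).biUnion
        fun q => (cAll B s h pj M Y).filter fun p => p.2 q.1 = p.2 q.2).card : ℕ) : ℝ)
      ≤ (Fintype.card (cat s h pj).R : ℝ) ^ 2 * N := by
    have h1 : ((((Finset.univ.filter
        fun q : (cat s h pj).R × (cat s h pj).R => q.1 ≠ q.2).biUnion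
        fun q => (cAll B s h pj M Y).filter fun p => p.2 q.1 = p.2 q.2).card : ℕ) : ℝ)
        ≤ ∑ q ∈ Finset.univ.filter fun q : (cat s h pj).R × (cat s h pj).R => q.1 ≠ q.2,
          (((cAll B s h pj M Y).filter fun p => p.2 q.1 = p.2 q.2).card : ℝ) := by
      exact_mod_cast Finset.card_biUnion_le
    refine (mul_le_mul_of_nonneg_left h1 hL'pos.le).trans ?_
    rw [Finset.mul_sum]
    have h2 : ∀ q ∈ Finset.univ.filter fun q : (cat s h pj).R × (cat s h pj).R => q.1 ≠ q.2,
        (4 / c * K) * (((cAll B s h pj M Y).filter fun p => p.2 q.1 = p.2 q.2).card : ℝ) ≤ N := by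
      intro q hq
      exact hpair q.1 q.2 (Finset.mem_filter.1 hq).2
    refine (Finset.sum_le_card_nsmul _ _ _ h2).trans ?_
    rw [nsmul_eq_mul]
    apply mul_le_mul_of_nonneg_right _ hNpos.le
    have h3 : (Finset.univ.filter fun q : (cat s h pj).R × (cat s h pj).R => q.1 ≠ q.2).card
        ≤ Fintype.card (cat s h pj).R ^ 2 := by
      refine (Finset.card_filter_le _ _).trans (le_of_eq ?_)
      rw [Finset.card_univ, Fintype.card_prod, sq]
    exact_mod_cast h3
  have hb2 : (4 / c * K) * ((((Finset.univ : Finset (Fin (h + 1))).biUnion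
        fun i => (cAll B s h pj M Y).filter fun p => ((Gh B M p.2 i).card : ℝ) < L).card : ℕ) : ℝ)
      ≤ ((h : ℝ) + 1) * (⌊L⌋₊ : ℝ) * N := by
    have h1 : ((((Finset.univ : Finset (Fin (h + 1))).biUnion
        fun i => (cAll B s h pj M Y).filter fun p => ((Gh B M p.2 i).card : ℝ) < L).card : ℕ) : ℝ)
        ≤ ∑ i : Fin (h + 1),
          (((cAll B s h pj M Y).filter fun p => ((Gh B M p.2 i).card : ℝ) < L).card : ℝ) := by
      exact_mod_cast Finset.card_biUnion_le
    refine (mul_le_mul_of_nonneg_left h1 hL'pos.le).trans ?_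
    rw [Finset.mul_sum]
    refine (Finset.sum_le_card_nsmul _ _ _ (fun i _ => hfew i)).trans ?_
    rw [nsmul_eq_mul, Finset.card_univ, Fintype.card_fin]
    push_cast
    linarith
  have hc3 : ((SKs A B s h pj Ch M Y).card : ℝ) ≤
      (((SKs A B s h pj Ch M Y).filter fun p => P p.2).card : ℝ) +
      (((((Finset.univ.filter
      fun q : (cat s h pj).R × (cat s h pj).R => q.1 ≠ q.2).biUnion
        fun q => (cAll B s h pj M Y).filter fun p => p.2 q.1 = p.2 q.2).card : ℕ) : ℝ) +
      ((((Finset.univ : Finset (Fin (h + 1))).biUnion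
        fun i => (cAll B s h pj M Y).filter fun p => ((Gh B M p.2 i).card : ℝ) < L).card : ℕ) : ℝ)) := by
    exact_mod_cast hc2
  set b1 : ℝ := ((((Finset.univ.filter
      fun q : (cat s h pj).R × (cat s h pj).R => q.1 ≠ q.2).biUnion
        fun q => (cAll B s h pj M Y).filter fun p => p.2 q.1 = p.2 q.2).card : ℕ) : ℝ) with hb1d
  set b2 : ℝ := ((((Finset.univ : Finset (Fin (h + 1))).biUnion
        fun i => (cAll B s h pj M Y).filter fun p => ((Gh B M p.2 i).card : ℝ) < L).card : ℕ) : ℝ) with hb2d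
  have hSK' : c * N ≤ (SKs A B s h pj Ch M Y).card := by
    rw [hNval, ← mul_assoc]
    exact hSK
  have hb : (4 / c * K) * (b1 + b2) ≤ K * N := by
    have h1 : ((Fintype.card (cat s h pj).R : ℝ) ^ 2 + ((h : ℝ) + 1) * (⌊L⌋₊ : ℝ)) * N ≤ K * N := by
      apply mul_le_mul_of_nonneg_right _ hNpos.le
      rw [hK]
      linarith
    linarith
  have hb' : b1 + b2 ≤ c / 4 * N := by
    have h1 : K * ((4 / c) * (b1 + b2)) ≤ K * N := by linarith
    have h2 : (4 / c) * (b1 + b2) ≤ N := le_of_mul_le_mul_left h1 hKpos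
    have h3 : (c / 4) * ((4 / c) * (b1 + b2)) ≤ (c / 4) * N :=
      mul_le_mul_of_nonneg_left h2 (by positivity)
    have h4 : (c / 4) * ((4 / c) * (b1 + b2)) = b1 + b2 := by
      field_simp
    linarith
  have : c * N ≤ c / 2 * N + c / 4 * N := by linarith
  nlinarith [mul_pos hc hNpos]

end

end Pool.Agent.helper94.IV
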