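import Pool.Agent.helper90.IV.Spec

set_option autoImplicit false

open scoped BigOperators

namespace Pool.Agent.helper94.IV

open Pool.Agent.helper23.TH Pool.Agent.KS Pool.Agent.IV

noncomputable section

open Classical

theorem nb_symm {I : Type} (T : Tr I) {i j : I} (h : T.nb i j) : T.nb j i := by
  rcases h with h | h
  · exact Or.inr h
  · exact Or.inl h

theorem GHO : GHO_stmt := by
  intro I _ T s gh W B hT hG hWB hdeg
  set W' : Finset I := W ∪ Bᶜ with hW'
  -- the new neighbours
  let S : I → Finset I := fun u => W'.filter fun w => w ∉ W ∧ T.nb u w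
  let Fr : I → Finset T.R := fun u => Finset.univ.filter fun r : T.R => r.1 = u ∧ gh r = none
  let G : I → Finset T.R := fun u => Finset.univ.filter fun r : T.R => r.1 = u ∧ gh r ≠ none
  have hWW' : W ⊆ W' := Finset.subset_union_left
  have hcard : ∀ u, u ∉ W' → (S u).card ≤ (Fr u).card := by
    intro u hu
    have hcap := hT.cap W' hdeg u hu
    have h1 : T.dI W' u = (W.filter fun j => T.nb u j).card + (S u).card := by
      unfold Tr.dI
      rw [← Finset.card_union_of_disjoint]
      · congr 1
        ext j
        simp only [Finset.mem_filter, Finset.mem_union, S]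
        constructor
        · rintro ⟨hj, hn⟩
          by_cases hjW : j ∈ W
          · exact Or.inl ⟨hjW, hn⟩
          · exact Or.inr ⟨hj, hjW, hn⟩
        · rintro (⟨hj, hn⟩ | ⟨hj, _, hn⟩)
          · exact ⟨hWW' hj, hn⟩
          · exact ⟨hj, hn⟩
      · rw [Finset.disjoint_left]
        intro j hj hj'
        simp only [Finset.mem_filter, S] at hj hj'
        exact hj'.2.1 hj.1
    have h2 : (G u).card ≤ (W.filter fun j => T.nb u j).card := by
      have hex : ∀ r ∈ G u, ∃ w, gh r = some w := by
        intro r hr
        simp only [Finset.mem_filter, Finset.mem_univ, true_and, G] at hr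
        exact Option.ne_none_iff_exists'.1 hr.2
      apply Finset.card_le_card_of_injOn (fun r => (gh r).getD u)
      · intro r hr
        obtain ⟨w, hw⟩ := hex r hr
        have hr' := hr
        simp only [Finset.coe_filter, Set.mem_ofPred_eq, Finset.mem_univ, true_and, G] at hr'
        simp only [Finset.coe_filter, Set.mem_ofPred_eq]
        rw [hw, Option.getD_some]
        refine ⟨hG.mem r w hw, ?_⟩
        have := hG.gv r w hw
        rw [hr'.1] at this
        exact this
      · intro r hr r' hr' he
        obtain ⟨w, hw⟩ := hex r hr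
        obtain ⟨w', hw'⟩ := hex r' hr'
        simp only at he
        rw [hw, hw', Option.getD_some, Option.getD_some] at he
        subst he
        exact hG.once r r' w hw hw'
    have h3 : (G u).card + (Fr u).card = T.ro u := by
      have hslots : (Finset.univ.filter fun r : T.R => r.1 = u).card = T.ro u := by
        have : (Finset.univ.filter fun r : T.R => r.1 = u)
            = (Finset.univ : Finset (Fin (T.ro u))).map ⟨fun k => (⟨u, k⟩ : T.R), by
                intro a b hab
                simpa using hab⟩ := by
          ext r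
          simp only [Finset.mem_filter, Finset.mem_univ, true_and, Finset.mem_map,
            Function.Embedding.coeFn_mk]
          constructor
          · intro h
            obtain ⟨i, k⟩ := r
            simp only at h
            subst h
            exact ⟨k, rfl⟩
          · rintro ⟨k, rfl⟩
            rfl
        rw [this, Finset.card_map, Finset.card_univ, Fintype.card_fin]
      rw [← hslots, ← Finset.card_union_of_disjoint]
      · congr 1
        ext r
        simp only [Finset.mem_union, Finset.mem_filter, Finset.mem_univ, true_and, G, Fr]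
        tauto
      · rw [Finset.disjoint_left]
        intro r hr hr'
        simp only [Finset.mem_filter, Finset.mem_univ, true_and, G, Fr] at hr hr'
        exact hr.2 hr'.2
    omega
  have hF : ∀ u, u ∉ W' → Nonempty ({w // w ∈ S u} ↪ {r // r ∈ Fr u}) := by
    intro u hu
    apply Function.Embedding.nonempty_of_card_le
    rw [Fintype.card_coe, Fintype.card_coe]
    exact hcard u hu
  obtain ⟨F⟩ : Nonempty (∀ u, u ∉ W' → ({w // w ∈ S u} ↪ {r // r ∈ Fr u})) :=
    ⟨fun u hu => (hF u hu).some⟩
  let Q : T.R → I → Prop := fun r w => gh r = some w ∨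
    ∃ (u : I) (hu : u ∉ W') (hw : w ∈ S u), (F u hu ⟨w, hw⟩).1 = r
  have hnew : ∀ (u : I) (hu : u ∉ W') (w : I) (hw : w ∈ S u),
      (F u hu ⟨w, hw⟩).1.1 = u ∧ gh (F u hu ⟨w, hw⟩).1 = none := by
    intro u hu w hw
    have := (F u hu ⟨w, hw⟩).2
    simpa only [Finset.mem_filter, Finset.mem_univ, true_and, Fr] using this
  have hSm : ∀ u w, w ∈ S u → w ∈ W' ∧ w ∉ W ∧ T.nb u w := by
    intro u w hw
    simpa only [Finset.mem_filter, S] using hw
  have hQu : ∀ r w w', Q r w → Q r w' → w = w' := by
    rintro r w w' (h | ⟨u, hu, hw, h⟩) (h' | ⟨u', hu', hw', h'⟩)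
    · rw [h] at h'
      exact Option.some.inj h'
    · exfalso
      have h2 := (hnew u' hu' w' hw').2
      rw [h', h] at h2
      cases h2
    · exfalso
      have h2 := (hnew u hu w hw).2
      rw [h, h'] at h2
      cases h2
    · have e1 := (hnew u hu w hw).1
      have e2 := (hnew u' hu' w' hw').1
      rw [h] at e1
      rw [h'] at e2
      have huu : u = u' := by rw [← e1, e2]
      subst huu
      have h3 : F u hu ⟨w, hw⟩ = F u hu ⟨w', hw'⟩ := Subtype.ext (h.trans h'.symm)
      have h4 := (F u hu).injective h3
      exact congrArg Subtype.val h4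
  let gh' : T.R → Option I := fun r => if h : ∃ w, Q r w then some h.choose else none
  have hgh' : ∀ r w, gh' r = some w ↔ Q r w := by
    intro r w
    constructor
    · intro h
      by_cases hx : ∃ w, Q r w
      · simp only [gh', dif_pos hx, Option.some.injEq] at h
        rw [← h]
        exact hx.choose_spec
      · simp only [gh', dif_neg hx] at h
        cases h
    · intro h
      have hx : ∃ w, Q r w := ⟨w, h⟩
      simp only [gh', dif_pos hx, Option.some.injEq]
      exact hQu r _ _ hx.choose_spec h
  refine ⟨gh', ⟨?_, ?_, ?_, ?_, hdeg⟩, ?_, ?_⟩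
  · intro r w h
    rcases (hgh' r w).1 h with h | ⟨u, hu, hw, h⟩
    · exact hG.gv r w h
    · have e1 := (hnew u hu w hw).1
      rw [h] at e1
      rw [e1]
      exact (hSm u w hw).2.2
  · intro r w h
    rcases (hgh' r w).1 h with h | ⟨u, hu, hw, h⟩
    · exact hWW' (hG.mem r w h)
    · exact (hSm u w hw).1
  · intro r r' w h h'
    rcases (hgh' r w).1 h with h | ⟨u, hu, hw, h⟩
    · rcases (hgh' r' w).1 h' with h' | ⟨u', hu', hw', h'⟩
      · exact hG.once r r' w h h'
      · exact absurd (hG.mem r w h) (hSm u' w hw').2.1
    · rcases (hgh' r' w).1 h' with h' | ⟨u', hu', hw', h'⟩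
      · exact absurd (hG.mem r' w h') (hSm u w hw).2.1
      · by_cases huu : u = u'
        · subst huu
          rw [← h, ← h']
        · exfalso
          have hwW' := (hSm u w hw).1
          have hd := hdeg w hwW'
          have hr1 := hT.ro1 w
          have hs3 := hT.s3
          have h2 : 1 < T.dO W' w := by
            unfold Tr.dO
            rw [Finset.one_lt_card]
            refine ⟨u, ?_, u', ?_, huu⟩
            · simp only [Finset.mem_filter, Finset.mem_univ, true_and]
              exact ⟨hu, nb_symm T (hSm u w hw).2.2⟩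
            · simp only [Finset.mem_filter, Finset.mem_univ, true_and]
              exact ⟨hu', nb_symm T (hSm u' w hw').2.2⟩
          omega
  · intro u hu w hw hn
    by_cases hwW : w ∈ W
    · have huW : u ∉ W := fun h => hu (hWW' h)
      obtain ⟨r, hr1, hr2⟩ := hG.all u huW w hwW hn
      exact ⟨r, hr1, (hgh' r w).2 (Or.inl hr2)⟩
    · have hS : w ∈ S u := by
        simp only [Finset.mem_filter, S]
        exact ⟨hw, hwW, hn⟩
      exact ⟨(F u hu ⟨w, hS⟩).1, (hnew u hu w hS).1, (hgh' _ w).2 (Or.inr ⟨u, hu, hS, rfl⟩)⟩
  · intro r w h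
    exact (hgh' r w).2 (Or.inl h)
  · intro r h0 h1
    obtain ⟨w, hw⟩ := Option.ne_none_iff_exists'.1 h1
    rcases (hgh' r w).1 hw with h | ⟨u, hu, hw, h⟩
    · rw [h] at h0
      cases h0
    · have e1 := (hnew u hu w hw).1
      rw [h] at e1
      rw [e1]
      exact hu

end

end Pool.Agent.helper94.IV
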